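import Pool.Agent.R996.QI.Defs
import Pool.Agent.R996.QI.Proof

/-!
# Zero divergence expansion coefficient versus positive Riemannian expansion coefficient

For `N` = measurement of a qubit in a random Pauli basis and `M` = partial dephasing of a qubit, the
relative expansion coefficient of the standard `f`-divergence with `f x = (x - 1) ^ 2` is `0`, while
the Riemannian relative expansion coefficient for `κ x = 2 / (1 + x)` (the Bures metric) is
positive.
-/

set_option autoImplicit false

open Pool.Agent.R996.QI

namespace Pool.Agent.Results.MP_7112d2_mp.YesForChiSquareAndBures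

/-- **Yes**: there are channels `N`, `M` on a common input space, `f ∈ F` and `κ ∈ K` (bounded, with
`κ 0 = κ(0⁺)`) such that the relative expansion coefficient of the standard `f`-divergence is `0`
and the Riemannian relative expansion coefficient is positive. (`IsGLB` says that the infima are
genuine infima of nonempty sets of quotients.) -/
theorem result :
    ∃ (N : Matrix (Fin 2) (Fin 2) ℂ →ₗ[ℂ] Matrix (Fin 6) (Fin 6) ℂ)
      (M : Matrix (Fin 2) (Fin 2) ℂ →ₗ[ℂ] Matrix (Fin 2) (Fin 2) ℂ),
      IsChannel N ∧ IsChannel M ∧
      ∃ f κ : ℝ → ℝ, ClassF f ∧ ClassK κ ∧ ContinuousAt κ 0 ∧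
        (etaStd f N M = 0 ∧ IsGLB (stdRatios f N M) (etaStd f N M)) ∧
        (0 < etaRiem κ N M ∧ IsGLB (riemRatios κ N M) (etaRiem κ N M)) :=
  Pool.Agent.R996.QI.main

end Pool.Agent.Results.MP_7112d2_mp.YesForChiSquareAndBures
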